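import Pool.Agent.W960.HR.Law

/-! # The expected number of limit cycles of a random polynomial system of degree `n`

For a planar polynomial system of degree at most `n` whose coefficients are independent standard
normal variables, the expected number of all closed orbits in the whole plane is at most
`2 * 10 ^ 12 * n * (1 + log n) ^ 3`. -/

open Set MeasureTheory
open scoped ENNReal

namespace Pool.Agent.W960.Old.KacExpectation

/-- the exponents `(i,j)` of all monomials `x^i y^j` of degree at most `n` -/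
def exponents (n : ℕ) : Finset (ℕ × ℕ) :=
  (Finset.range (n + 1) ×ˢ Finset.range (n + 1)).filter fun m => m.1 + m.2 ≤ n

/-- The set of all nonconstant closed orbits (limit cycles or not), anywhere in the plane `ℝ²`, of
the system `x' = ∑_{i+j ≤ n} a_{ij} x^i y^j`, `y' = ∑_{i+j ≤ n} b_{ij} x^i y^j`, where
`c (i,j) = (a_{ij}, b_{ij})`. -/
def closedOrbits (n : ℕ) (c : exponents n → ℝ × ℝ) : Set (Set (ℝ × ℝ)) :=
  {C | ∃ γ : ℝ → ℝ × ℝ, ∃ T : ℝ, 0 < T ∧
      (∀ t : ℝ, HasDerivAt γ
        (∑ m : exponents n, (c m).1 * ((γ t).1 ^ m.1.1 * (γ t).2 ^ m.1.2),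
         ∑ m : exponents n, (c m).2 * ((γ t).1 ^ m.1.1 * (γ t).2 ^ m.1.2)) t) ∧
      (∀ t : ℝ, γ (t + T) = γ t) ∧
      (∃ s t : ℝ, γ s ≠ γ t) ∧
      C = Set.range γ}

open Pool.Agent.H709R2 in
lemma count_eq (n : ℕ) (c : exponents n → ℝ × ℝ) :
    (((closedOrbits n c).encard : ℕ∞) : ℝ≥0∞) = NP c := by
  have h1 : ∀ p : ℝ × ℝ, (∑ m : exponents n, (c m).1 * (p.1 ^ m.1.1 * p.2 ^ m.1.2),
      ∑ m : exponents n, (c m).2 * (p.1 ^ m.1.1 * p.2 ^ m.1.2)) = fld c p := by
    intro p
    unfold fld
    ext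
    · simp only [Prod.fst_sum, Prod.smul_fst, smul_eq_mul]
      exact Finset.sum_congr rfl fun m _ => mul_comm _ _
    · simp only [Prod.snd_sum, Prod.smul_snd, smul_eq_mul]
      exact Finset.sum_congr rfl fun m _ => mul_comm _ _
  unfold NP closedOrbits ClosedOrbit
  simp only [h1]

/-- For every `n ≥ 1`: if all the coefficients `a_{ij}`, `b_{ij}`, `i + j ≤ n`, are independent
standard normal variables, then the number of all closed orbits in the plane is a random variable
(a Borel function of the coefficients) with expectation at most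
`2 * 10 ^ 12 * n * (1 + log n) ^ 3`. -/
theorem result (n : ℕ) (hn : 1 ≤ n) :
    Measurable (fun c : exponents n → ℝ × ℝ => (((closedOrbits n c).encard : ℕ∞) : ℝ≥0∞)) ∧
    ∫⁻ c, (((closedOrbits n c).encard : ℕ∞) : ℝ≥0∞)
      ∂(Measure.pi fun _ : exponents n =>
        (ProbabilityTheory.gaussianReal 0 1).prod (ProbabilityTheory.gaussianReal 0 1)) ≤
      ENNReal.ofReal (2 * 10 ^ 12 * n * (1 + Real.log n) ^ 3) := by
  simp only [count_eq]
  exact ⟨H709R2.measurable_NP, W960.HR.kac hn⟩

end Pool.Agent.W960.Old.KacExpectation
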