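import Pool.Agent.W960.HS.Fin

/-! # The expected number of limit cycles of a Kostlan-Shub-Smale system of degree `n`

For a planar polynomial system of degree `n` from the Kostlan-Shub-Smale ensemble, the expected
number of all closed orbits in the whole plane is at most `C * n`, with an absolute constant `C`. -/

open Set MeasureTheory
open scoped ENNReal

namespace Pool.Agent.W960.Old.KostlanExpectation

/-- the exponents `(i,j)` of all monomials `x^i y^j` of degree at most `n` -/
def exponents (n : ℕ) : Finset (ℕ × ℕ) :=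
  (Finset.range (n + 1) ×ˢ Finset.range (n + 1)).filter fun m => m.1 + m.2 ≤ n

/-- the weights `√(n! / (i! j! (n - i - j)!))` of the Kostlan-Shub-Smale ensemble -/
noncomputable def weight (n : ℕ) (m : ℕ × ℕ) : ℝ :=
  √((n.factorial : ℝ) / (m.1.factorial * m.2.factorial * (n - m.1 - m.2).factorial))

/-- The set of all nonconstant closed orbits (limit cycles or not), anywhere in the plane `ℝ²`, of
the system `x' = ∑_{i+j ≤ n} w_{ij} a_{ij} x^i y^j`, `y' = ∑_{i+j ≤ n} w_{ij} b_{ij} x^i y^j`, where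
`c (i,j) = (a_{ij}, b_{ij})` and `w_{ij} = √(n! / (i! j! (n - i - j)!))`. -/
def closedOrbits (n : ℕ) (c : exponents n → ℝ × ℝ) : Set (Set (ℝ × ℝ)) :=
  {C | ∃ γ : ℝ → ℝ × ℝ, ∃ T : ℝ, 0 < T ∧
      (∀ t : ℝ, HasDerivAt γ
        (∑ m : exponents n, weight n m.1 * (c m).1 * ((γ t).1 ^ m.1.1 * (γ t).2 ^ m.1.2),
         ∑ m : exponents n, weight n m.1 * (c m).2 * ((γ t).1 ^ m.1.1 * (γ t).2 ^ m.1.2)) t) ∧
      (∀ t : ℝ, γ (t + T) = γ t) ∧
      (∃ s t : ℝ, γ s ≠ γ t) ∧
      C = Set.range γ}

open Pool.Agent.W960.HS in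
lemma weight_eq {n : ℕ} {m : ℕ × ℕ} (h : m.1 + m.2 ≤ n) : weight n m = sm n m := by
  have h1 : m.2 ≤ n := by omega
  have h2 : m.1 ≤ n - m.2 := by omega
  have e : n - m.2 - m.1 = n - m.1 - m.2 := by omega
  unfold weight sm mlt
  congr 1
  rw [Nat.cast_choose ℝ h1, Nat.cast_choose ℝ h2, e]
  have h3 : ((n - m.2).factorial : ℝ) ≠ 0 := by exact_mod_cast (Nat.factorial_pos _).ne'
  field_simp

open Pool.Agent.H709R2 Pool.Agent.W960.HS in
lemma count_eq (n : ℕ) (c : exponents n → ℝ × ℝ) :
    (((closedOrbits n c).encard : ℕ∞) : ℝ≥0∞) = NP (sc n c) := by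
  have hw : ∀ m : exponents n, weight n m.1 = sm n m.1 := fun m => by
    have hm := m.2
    unfold exponents at hm
    exact weight_eq (Finset.mem_filter.1 hm).2
  have h1 : ∀ p : ℝ × ℝ,
      (∑ m : exponents n, weight n m.1 * (c m).1 * (p.1 ^ m.1.1 * p.2 ^ m.1.2),
      ∑ m : exponents n, weight n m.1 * (c m).2 * (p.1 ^ m.1.1 * p.2 ^ m.1.2)) =
      fld (sc n c) p := by
    intro p
    unfold fld
    ext
    · simp only [Prod.fst_sum, Prod.smul_fst, smul_eq_mul]
      refine Finset.sum_congr rfl fun m _ => ?_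
      rw [hw]
      show sm n m.1 * (c m).1 * _ = _ * (sm n m.1 * (c m).1)
      ring
    · simp only [Prod.snd_sum, Prod.smul_snd, smul_eq_mul]
      refine Finset.sum_congr rfl fun m _ => ?_
      rw [hw]
      show sm n m.1 * (c m).2 * _ = _ * (sm n m.1 * (c m).2)
      ring
  unfold NP closedOrbits ClosedOrbit
  simp only [h1]

/-- There is an absolute constant `C` such that for every `n ≥ 1`: if all the `a_{ij}`, `b_{ij}`,
`i + j ≤ n`, are independent standard normal variables, then the number of all closed orbits in the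
plane of the Kostlan-Shub-Smale system is a random variable (a Borel function of the coefficients)
with expectation at most `C * n`. -/
theorem result : ∃ C : ℝ, ∀ n : ℕ, 1 ≤ n →
    Measurable (fun c : exponents n → ℝ × ℝ => (((closedOrbits n c).encard : ℕ∞) : ℝ≥0∞)) ∧
    ∫⁻ c, (((closedOrbits n c).encard : ℕ∞) : ℝ≥0∞)
      ∂(Measure.pi fun _ : exponents n =>
        (ProbabilityTheory.gaussianReal 0 1).prod (ProbabilityTheory.gaussianReal 0 1)) ≤
      ENNReal.ofReal (C * n) := by
  obtain ⟨C, hC⟩ := W960.HS.kostlan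
  refine ⟨C, fun n hn => ?_⟩
  simp only [count_eq]
  exact ⟨H709R2.measurable_NP.comp (W960.HS.continuous_sc n).measurable, hC n hn⟩

end Pool.Agent.W960.Old.KostlanExpectation
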