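import Pool.Agent.W960.HP.Lienard

/-! # Smale's 13th problem for persistent closed orbits

For every single Lienard system `x' = y - F(x)`, `y' = -x` with a real polynomial `F` of degree at
most `n` the sum, over all its closed orbits, of the lengths of the intervals of `s` in `(-m, m)` up
to which they persist in the family `x' = y - F(x) + s x`, `y' = -x` is at most `640000 m n²`. -/

open Set MeasureTheory
open scoped ENNReal

namespace Pool.Agent.W960.Old.LienardPersistence

/-- the Lienard field `x' = y - F(x) + s x`, `y' = -x` -/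
def lienard (F : Polynomial ℝ) (s : ℝ) (z : ℝ × ℝ) : ℝ × ℝ :=
  (z.2 - F.eval z.1 + s * z.1, -z.1)

/-- all closed orbits (ranges of nonconstant periodic solutions, limit cycles or not) in the plane
of the Lienard system `x' = y - F(x)`, `y' = -x` -/
def closedOrbits (F : Polynomial ℝ) : Set (Set (ℝ × ℝ)) :=
  {C | ∃ γ : ℝ → ℝ × ℝ, ∃ T : ℝ, 0 < T ∧
    (∀ t, HasDerivAt γ ((γ t).2 - F.eval (γ t).1, -(γ t).1) t) ∧
    (∀ t, γ (t + T) = γ t) ∧ (∃ s t, γ s ≠ γ t) ∧ C = range γ}

/-- The closed orbit `C` of `x' = y - F(x)`, `y' = -x` persists for all parameters `s` between `0`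
and `η` in the family `x' = y - F(x) + s x`, `y' = -x`: there are a continuous map
`(s, t) ↦ γ s t` and a continuous positive function `s ↦ T s` such that for all `s` between `0` and
`η` the curve `γ s` is a nonconstant solution of period `T s` of the system with parameter `s`,
and `C` is the range of `γ 0`. -/
def Persists (F : Polynomial ℝ) (η : ℝ) (C : Set (ℝ × ℝ)) : Prop :=
  ∃ γ : ℝ → ℝ → ℝ × ℝ, ∃ T : ℝ → ℝ,
    ContinuousOn (fun q : ℝ × ℝ => γ q.1 q.2) (uIcc 0 η ×ˢ univ) ∧ ContinuousOn T (uIcc 0 η) ∧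
    (∀ s ∈ uIcc 0 η, 0 < T s ∧ (∀ t, HasDerivAt (γ s) (lienard F s (γ s t)) t) ∧
      (∀ t, γ s (t + T s) = γ s t) ∧ (∃ u t, γ s u ≠ γ s t)) ∧
    C = range (γ 0)

/-- **The total persistence of the closed orbits of a single Lienard system, at most quadratic in
the degree.** -/
theorem result (F : Polynomial ℝ) (n : ℕ) (hF : F.natDegree ≤ n) (hn : 1 ≤ n) (m : ℕ) :
    ∑' C : closedOrbits F,
      volume {η : ℝ | η ∈ Ioo (-(m : ℝ)) m ∧ Persists F η C} ≤
      ENNReal.ofReal (640000 * m * n ^ 2) :=
  W960.HP.totalL hF hn m (closedOrbits F)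

end Pool.Agent.W960.Old.LienardPersistence
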